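import Mathlib

/-!
# BSM.Nice: the well-order `W` of type `ω₁` and nice Boolean valued trees on `V = W × W`
-/

set_option autoImplicit false

namespace Pool.Agent.Lib.BSM

open Set Cardinal

universe u

/-- the well-order of type `ω₁` -/
abbrev W : Type := (ℵ_ 1).ord.ToType

theorem mk_W : #W = ℵ_ 1 := mk_ord_toType _

/-- initial segments of `W` are countable -/
theorem countable_Iio (w : W) : (Iio w).Countable := by
  rw [← le_aleph0_iff_set_countable, ← Order.lt_succ_iff, succ_aleph0]
  have h := mk_Iio_lt w (by rw [mk_W, Ordinal.type_toType])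
  rwa [mk_W] at h

theorem countable_Iic (w : W) : (Iic w).Countable := by
  rw [← Iio_insert]
  exact (countable_Iio w).insert w

theorem not_countable_W : ¬ (univ : Set W).Countable := by
  rw [← le_aleph0_iff_set_countable, mk_univ, mk_W, not_le]
  exact aleph0_lt_aleph_one

/-- countable subsets of `W` are bounded -/
theorem exists_gt (S : Set W) (hS : S.Countable) : ∃ v, ∀ s ∈ S, s < v := by
  by_contra h
  push Not at h
  apply not_countable_W
  refine (hS.biUnion (t := fun s _ => Iic s) (fun s _ => countable_Iic s)).mono ?_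
  intro v _
  obtain ⟨s, hs, hvs⟩ := h v
  exact mem_biUnion hs (mem_Iic.2 hvs)

/-- the nodes of a nice tree -/
abbrev V : Type := W × W

/-- the possible predecessors of a node -/
def pre (t : V) : Set V := {s | s.1 ≤ t.1 ∧ s.2 < t.1}

theorem countable_pre (t : V) : (pre t).Countable :=
  ((countable_Iic t.1).prod (countable_Iio t.1)).mono fun _ h => mk_mem_prod h.1 h.2

theorem pre_subset {s t : V} (h : s ∈ pre t) : pre s ⊆ pre t :=
  fun _ hr => ⟨hr.1.trans h.1, hr.2.trans_le h.1⟩

/-- Every Boolean valued chain is countable. -/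
def NOCH {B : Type u} [CompleteBooleanAlgebra B] {T : Type*} (lt : T → T → B) : Prop :=
  ∀ c : T → B, (∀ s t, s ≠ t → c s ⊓ c t ≤ lt s t ⊔ lt t s) →
    ∀ b, b ≠ ⊥ → ∃ b' ≤ b, b' ≠ ⊥ ∧ ∃ C : Set T, C.Countable ∧ ∀ s, s ∉ C → c s ⊓ b' = ⊥

/-- Nice Boolean valued trees on `V`. -/
structure NTree (B : Type u) [CompleteBooleanAlgebra B] where
  lt : V → V → B
  zero : ∀ s t, s ∉ pre t → lt s t = ⊥
  irrefl : ∀ t, lt t t = ⊥
  trans : ∀ r s t, lt r s ⊓ lt s t ≤ lt r t
  comp : ∀ r s t, r ≠ s → lt r t ⊓ lt s t ≤ lt r s ⊔ lt s r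
  noch : NOCH lt

end Pool.Agent.Lib.BSM
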